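import Mathlib

set_option autoImplicit false

/-!
# The continued logarithm algorithm on pairs of integers: basic lemmas
-/

namespace Pool.Agent.Q252.CL

/-- The continued logarithm expansion `cl (p, q)` of `p / q`, `p ≥ q ≥ 1`. -/
def cl (p q : ℕ) : List ℕ :=
  if h : 2 ^ Nat.log 2 (p / q) * q < p ∧ 0 < q then
    Nat.log 2 (p / q) :: cl (2 ^ Nat.log 2 (p / q) * q) (p - 2 ^ Nat.log 2 (p / q) * q)
  else [Nat.log 2 (p / q)]
termination_by p
decreasing_by exact h.1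

/-- The number of terms. -/
def L (p q : ℕ) : ℕ := (cl p q).length

theorem log_eq {p q k : ℕ} (hq : 0 < q) (h1 : 2 ^ k * q ≤ p) (h2 : p < 2 ^ (k + 1) * q) :
    Nat.log 2 (p / q) = k :=
  Nat.log_eq_of_pow_le_of_lt_pow ((Nat.le_div_iff_mul_le hq).2 h1) ((Nat.div_lt_iff_lt_mul hq).2 h2)

theorem cl_last {q : ℕ} (hq : 0 < q) (k : ℕ) : cl (2 ^ k * q) q = [k] := by
  have h := log_eq (p := 2 ^ k * q) (q := q) (k := k) hq le_rfl (by rw [pow_succ]; nlinarith [Nat.pow_pos (n := k) (show 0 < 2 by norm_num), Nat.mul_pos (Nat.pow_pos (n := k) (show 0 < 2 by norm_num)) hq])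
  rw [cl, h]
  simp

theorem cl_step {p q k : ℕ} (hq : 0 < q) (h1 : 2 ^ k * q < p) (h2 : p < 2 ^ (k + 1) * q) :
    cl p q = k :: cl (2 ^ k * q) (p - 2 ^ k * q) := by
  have h := log_eq hq h1.le h2
  conv_lhs => rw [cl]
  rw [h, dif_pos ⟨h1, hq⟩]

theorem L_last {q : ℕ} (hq : 0 < q) (k : ℕ) : L (2 ^ k * q) q = 1 := by
  rw [L, cl_last hq]; rfl

theorem L_step {p q k : ℕ} (hq : 0 < q) (h1 : 2 ^ k * q < p) (h2 : p < 2 ^ (k + 1) * q) :
    L p q = 1 + L (2 ^ k * q) (p - 2 ^ k * q) := by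
  rw [L, cl_step hq h1 h2, List.length_cons, L, add_comm]

theorem L_pos (p q : ℕ) : 0 < L p q := by
  rw [L, cl]
  split_ifs <;> simp

theorem exists_k {p q : ℕ} (hq : 0 < q) (hpq : q ≤ p) : ∃ k, 2 ^ k * q ≤ p ∧ p < 2 ^ (k + 1) * q := by
  refine ⟨Nat.log 2 (p / q), ?_, ?_⟩
  · exact (Nat.le_div_iff_mul_le hq).1 (Nat.pow_log_le_self 2 (Nat.div_pos hpq hq).ne')
  · exact (Nat.div_lt_iff_lt_mul hq).1 (Nat.lt_pow_succ_log_self (by norm_num) _)

/-- The first step, in both cases. -/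
theorem step_cases {p q : ℕ} (hq : 0 < q) (hpq : q ≤ p) : ∃ k, 2 ^ k * q ≤ p ∧ p < 2 ^ (k + 1) * q ∧
    ((p = 2 ^ k * q ∧ L p q = 1) ∨ (2 ^ k * q < p ∧ 0 < p - 2 ^ k * q ∧ p - 2 ^ k * q < 2 ^ k * q ∧
      L p q = 1 + L (2 ^ k * q) (p - 2 ^ k * q))) := by
  obtain ⟨k, h1, h2⟩ := exists_k hq hpq
  refine ⟨k, h1, h2, ?_⟩
  rcases h1.eq_or_lt with h | h
  · left
    refine ⟨h.symm, ?_⟩
    rw [← h]
    exact L_last hq k
  · right
    have e : 2 ^ (k + 1) * q = 2 * (2 ^ k * q) := by ring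
    refine ⟨h, by omega, by omega, L_step hq h h2⟩

theorem L_scale {c : ℕ} (hc : 0 < c) : ∀ p q : ℕ, 0 < q → q ≤ p → L (c * p) (c * q) = L p q := by
  intro p
  induction p using Nat.strong_induction_on with
  | _ p ih =>
    intro q hq hpq
    obtain ⟨k, h1, h2, h⟩ := step_cases hq hpq
    rcases h with ⟨h3, h4⟩ | ⟨h3, h4, h5, h6⟩
    · rw [h4, h3]
      have : c * (2 ^ k * q) = 2 ^ k * (c * q) := by ring
      rw [this]
      exact L_last (Nat.mul_pos hc hq) k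
    · have e1 : c * (2 ^ k * q) = 2 ^ k * (c * q) := by ring
      have e2 : c * (2 ^ (k + 1) * q) = 2 ^ (k + 1) * (c * q) := by ring
      rw [h6, ← ih (2 ^ k * q) h3 (p - 2 ^ k * q) h4 h5.le,
        L_step (k := k) (Nat.mul_pos hc hq) (by rw [← e1]; exact Nat.mul_lt_mul_of_pos_left h3 hc)
          (by rw [← e2]; exact Nat.mul_lt_mul_of_pos_left h2 hc), Nat.mul_sub, ← e1]

theorem L_two {p q : ℕ} (hq : 0 < q) (hpq : q ≤ p) : L (2 * p) q = L p q := by
  obtain ⟨k, h1, h2, h⟩ := step_cases hq hpq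
  rcases h with ⟨h3, h4⟩ | ⟨h3, h4, h5, h6⟩
  · rw [h4, h3]
    have : 2 * (2 ^ k * q) = 2 ^ (k + 1) * q := by ring
    rw [this]
    exact L_last hq (k + 1)
  · have e1 : 2 * (2 ^ k * q) = 2 ^ (k + 1) * q := by ring
    have e2 : 2 * (2 ^ (k + 1) * q) = 2 ^ (k + 1 + 1) * q := by ring
    rw [h6, ← L_scale (c := 2) (by norm_num) (2 ^ k * q) (p - 2 ^ k * q) h4 h5.le,
      L_step (k := k + 1) hq (by rw [← e1]; omega) (by rw [← e2]; omega), ← e1, Nat.mul_sub]

theorem L_pow {p q : ℕ} (hq : 0 < q) (hpq : q ≤ p) (j : ℕ) : L (2 ^ j * p) q = L p q := by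
  induction j with
  | zero => simp
  | succ j ih =>
    have e : 2 ^ (j + 1) * p = 2 * (2 ^ j * p) := by ring
    have h1 : 1 ≤ 2 ^ j := Nat.one_le_two_pow
    rw [e, L_two hq (hpq.trans (Nat.le_mul_of_pos_left p h1)), ih]

/-- **Upper bound**: if `α, β < 2 ^ m` then `L (2 ^ κ α, β) ≤ 3 m`. -/
theorem L_le (m : ℕ) : ∀ κ α β : ℕ, 0 < α → 0 < β → α < 2 ^ m → β < 2 ^ m → β ≤ 2 ^ κ * α →
    L (2 ^ κ * α) β ≤ 3 * m := by
  induction m with
  | zero =>
    intro κ α β hα hβ h1 h2 _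
    simp at h1
    omega
  | succ m ih =>
    intro κ α β hα hβ h1 h2 h3
    -- the main case
    have main : ∀ α β : ℕ, 0 < α → 0 < β → α < 2 ^ (m + 1) → β ≤ α → L α β ≤ 2 + 3 * m := by
      intro α β hα hβ h1 hβα
      rw [pow_succ] at h1
      obtain ⟨j, g1, g2, g⟩ := step_cases hβ hβα
      rcases g with ⟨g3, g4⟩ | ⟨g3, g4, g5, g6⟩
      · omega
      · rcases Nat.eq_zero_or_pos j with hj | hj
        · subst hj
          simp only [pow_zero, one_mul] at g3 g4 g5 g6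
          obtain ⟨j', f1, f2, f⟩ := step_cases g4 g5.le
          rcases f with ⟨f3, f4⟩ | ⟨f3, f4, f5, f6⟩
          · omega
          · have hj'1 : α - β ≤ 2 ^ j' * (α - β) := Nat.le_mul_of_pos_left _ (Nat.pow_pos (by norm_num))
            have := ih j' (α - β) (β - 2 ^ j' * (α - β)) g4 f4 (by omega) (by omega) f5.le
            omega
        · have hj2 : 2 * β ≤ 2 ^ j * β := by
            apply Nat.mul_le_mul_right
            calc 2 = 2 ^ 1 := rfl
              _ ≤ 2 ^ j := Nat.pow_le_pow_right (by norm_num) hj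
          have := ih j β (α - 2 ^ j * β) hβ g4 (by omega) (by omega) g5.le
          omega
    rcases le_or_gt β α with hβα | hαβ
    · rw [L_pow hβ hβα]
      have := main α β hα hβ h1 hβα
      omega
    · obtain ⟨k, g1, g2, g⟩ := step_cases hβ h3
      rcases g with ⟨g3, g4⟩ | ⟨g3, g4, g5, g6⟩
      · omega
      · have hk : k < κ := by
          by_contra hcon
          have h4 : 2 ^ κ * α < 2 ^ k * β := by
            calc 2 ^ κ * α < 2 ^ κ * β := Nat.mul_lt_mul_of_pos_left hαβ (Nat.pow_pos (by norm_num))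
              _ ≤ 2 ^ k * β := Nat.mul_le_mul_right _ (Nat.pow_le_pow_right (by norm_num) (by omega))
          omega
        obtain ⟨i, rfl⟩ : ∃ i, κ = k + i := ⟨κ - k, by omega⟩
        have e : 2 ^ (k + i) * α - 2 ^ k * β = 2 ^ k * (2 ^ i * α - β) := by
          rw [Nat.mul_sub, pow_add, mul_assoc]
        rw [e] at g4 g5 g6
        have hk0 : 0 < 2 ^ k := Nat.pow_pos (by norm_num)
        have g4' : 0 < 2 ^ i * α - β := Nat.pos_of_mul_pos_left g4
        have g5' : 2 ^ i * α - β < β := Nat.lt_of_mul_lt_mul_left g5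
        rw [L_scale hk0 _ _ g4' g5'.le] at g6
        have := main β (2 ^ i * α - β) hβ g4' h2 g5'.le
        omega

end Pool.Agent.Q252.CL
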