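import Pool.Agent.Q252.CL.Core

set_option autoImplicit false

/-!
# Closed forms and unboundedness
-/

namespace Pool.Agent.Q252.CL

theorem L_eq {p q k r : ℕ} (hq : 0 < q) (hp : p = 2 ^ k * q + r) (hr : 0 < r) (hr2 : r < 2 ^ k * q) :
    L p q = 1 + L (2 ^ k * q) r := by
  have e : 2 ^ (k + 1) * q = 2 * (2 ^ k * q) := by ring
  rw [L_step (k := k) hq (by omega) (by omega)]
  congr 2
  omega

theorem L_eq' {p q r K s : ℕ} (k : ℕ) (hK : 2 ^ k = K) (hq : 0 < q) (hs : K * q = s) (hp : p = s + r)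
    (hr : 0 < r) (hr2 : r < s) : L p q = 1 + L s r := by
  subst hK hs
  exact L_eq hq hp hr hr2

theorem L_mersenne (m : ℕ) : L (2 ^ (m + 2) - 1) 1 = 2 * (m + 1) := by
  induction m with
  | zero =>
    rw [L_eq (k := 1) (r := 1) (by norm_num) (by norm_num) (by norm_num) (by norm_num)]
    rw [L_last (by norm_num) 1]
  | succ m ih =>
    have h1 : 1 ≤ 2 ^ m := Nat.one_le_two_pow
    have e1 : 2 ^ (m + 1 + 2) = 8 * 2 ^ m := by ring
    have e2 : 2 ^ (m + 2) = 4 * 2 ^ m := by ring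
    rw [e1]
    rw [e2] at ih
    rw [L_eq (k := m + 2) (r := 4 * 2 ^ m - 1) (by norm_num) (by rw [e2]; omega) (by omega) (by rw [e2]; omega), e2,
      mul_one, L_eq (k := 0) (r := 1) (by omega) (by omega) (by norm_num) (by omega), pow_zero, one_mul, ih]
    ring

/-- `L (2 ^ (2 t) - 2 ^ t + 1) = 2 t + 1`, `t ≥ 4` -/
theorem form_two (u : ℕ) : L (2 ^ (2 * (u + 4)) - 2 ^ (u + 4) + 1) 1 = 2 * (u + 4) + 1 := by
  obtain ⟨Y, hY⟩ : ∃ Y : ℕ, 2 ^ (u + 2) = Y + 4 := by
    refine ⟨2 ^ (u + 2) - 4, ?_⟩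
    rw [pow_add]
    have : 1 ≤ 2 ^ u := Nat.one_le_two_pow
    omega
  have e1 : 2 ^ (u + 4) = 4 * Y + 16 := by
    have : 2 ^ (u + 4) = 4 * 2 ^ (u + 2) := by ring
    rw [this, hY]; ring
  have e2 : 2 ^ (2 * (u + 4)) = 16 * Y ^ 2 + 128 * Y + 256 := by
    have : 2 ^ (2 * (u + 4)) = 16 * (2 ^ (u + 2)) ^ 2 := by ring
    rw [this, hY]; ring
  have e3 : 2 ^ (2 * u + 7) = 8 * Y ^ 2 + 64 * Y + 128 := by
    have : 2 ^ (2 * u + 7) = 8 * (2 ^ (u + 2)) ^ 2 := by ring
    rw [this, hY]; ring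
  have e4 : 2 ^ (u + 3) = 2 * Y + 8 := by
    have : 2 ^ (u + 3) = 2 * 2 ^ (u + 2) := by ring
    rw [this, hY]; ring
  have e5 : 2 ^ (u + 2) - 1 = Y + 3 := by omega
  rw [e1, e2]
  have n1 : 16 * Y ^ 2 + 128 * Y + 256 - (4 * Y + 16) + 1 = 16 * Y ^ 2 + 124 * Y + 241 := by omega
  rw [n1,
    L_eq' (s := 8 * Y ^ 2 + 64 * Y + 128) (r := 8 * Y ^ 2 + 60 * Y + 113) (2 * u + 7) e3 (by norm_num) (by ring)
      (by ring) (by omega) (by omega),
    L_eq' (s := 8 * Y ^ 2 + 60 * Y + 113) (r := 4 * Y + 15) 0 (pow_zero 2) (by omega) (by ring)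
      (by ring) (by omega) (by omega),
    L_eq' (s := 4 * Y ^ 2 + 31 * Y + 60) (r := 4 * Y ^ 2 + 29 * Y + 53) (u + 2) hY (by omega) (by ring)
      (by ring) (by omega) (by omega),
    L_eq' (s := 4 * Y ^ 2 + 29 * Y + 53) (r := 2 * Y + 7) 0 (pow_zero 2) (by omega) (by ring)
      (by ring) (by omega) (by omega),
    L_eq' (s := 2 * Y ^ 2 + 15 * Y + 28) (r := 2 * Y ^ 2 + 14 * Y + 25) (u + 2) hY (by omega) (by ring)
      (by ring) (by omega) (by omega),
    L_eq' (s := 2 * Y ^ 2 + 14 * Y + 25) (r := Y + 3) 0 (pow_zero 2) (by omega) (by ring)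
      (by ring) (by omega) (by omega),
    L_eq' (s := 2 * Y ^ 2 + 14 * Y + 24) (r := 1) (u + 3) e4 (by omega) (by ring)
      (by ring) (by omega) (by omega)]
  have e6 : 2 * Y ^ 2 + 14 * Y + 24 = 2 ^ (u + 3) * (Y + 3) := by rw [e4]; ring
  rw [e6, L_pow (by norm_num) (by omega), ← e5, L_mersenne]
  ring

/-- `L (2 ^ (3 t) - 2 ^ t + 1) = 2 t + 1`, `t ≥ 3` -/
theorem form_three (u : ℕ) : L (2 ^ (3 * (u + 3)) - 2 ^ (u + 3) + 1) 1 = 2 * (u + 3) + 1 := by
  obtain ⟨Y, hY⟩ : ∃ Y : ℕ, 2 ^ (u + 2) = Y + 4 := by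
    refine ⟨2 ^ (u + 2) - 4, ?_⟩
    rw [pow_add]
    have : 1 ≤ 2 ^ u := Nat.one_le_two_pow
    omega
  have e1 : 2 ^ (u + 3) = 2 * Y + 8 := by
    have : 2 ^ (u + 3) = 2 * 2 ^ (u + 2) := by ring
    rw [this, hY]; ring
  have e2 : 2 ^ (3 * (u + 3)) = 8 * Y ^ 3 + 96 * Y ^ 2 + 384 * Y + 512 := by
    have : 2 ^ (3 * (u + 3)) = 8 * (2 ^ (u + 2)) ^ 3 := by ring
    rw [this, hY]; ring
  have e3 : 2 ^ (3 * u + 8) = 4 * Y ^ 3 + 48 * Y ^ 2 + 192 * Y + 256 := by
    have : 2 ^ (3 * u + 8) = 4 * (2 ^ (u + 2)) ^ 3 := by ring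
    rw [this, hY]; ring
  have e4 : 2 ^ (2 * u + 5) = 2 * Y ^ 2 + 16 * Y + 32 := by
    have : 2 ^ (2 * u + 5) = 2 * (2 ^ (u + 2)) ^ 2 := by ring
    rw [this, hY]; ring
  have e5 : 2 ^ (u + 2) - 1 = Y + 3 := by omega
  rw [e1, e2]
  have n1 : 8 * Y ^ 3 + 96 * Y ^ 2 + 384 * Y + 512 - (2 * Y + 8) + 1 = 8 * Y ^ 3 + 96 * Y ^ 2 + 382 * Y + 505 := by
    omega
  rw [n1,
    L_eq' (s := 4 * Y ^ 3 + 48 * Y ^ 2 + 192 * Y + 256) (r := 4 * Y ^ 3 + 48 * Y ^ 2 + 190 * Y + 249) (3 * u + 8) e3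
      (by norm_num) (by ring) (by ring) (by omega) (by omega),
    L_eq' (s := 4 * Y ^ 3 + 48 * Y ^ 2 + 190 * Y + 249) (r := 2 * Y + 7) 0 (pow_zero 2) (by omega) (by ring)
      (by ring) (by omega) (by omega),
    L_eq' (s := 4 * Y ^ 3 + 46 * Y ^ 2 + 176 * Y + 224) (r := 2 * Y ^ 2 + 14 * Y + 25) (2 * u + 5) e4 (by omega)
      (by ring) (by ring) (by omega) (by omega),
    L_eq' (s := 4 * Y ^ 3 + 44 * Y ^ 2 + 162 * Y + 200) (r := 2 * Y ^ 2 + 14 * Y + 24) (u + 3) e1 (by omega)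
      (by ring) (by ring) (by omega) (by omega),
    L_eq' (s := 4 * Y ^ 3 + 44 * Y ^ 2 + 160 * Y + 192) (r := 2 * Y + 8) (u + 3) e1 (by omega)
      (by ring) (by ring) (by omega) (by omega)]
  have e6 : 4 * Y ^ 3 + 44 * Y ^ 2 + 160 * Y + 192 = (2 * Y + 8) * (2 ^ (u + 3) * (Y + 3)) := by rw [e1]; ring
  have h1 : 1 ≤ 2 ^ (u + 3) * (Y + 3) := Nat.mul_pos (by positivity) (by omega)
  have h2 := L_scale (c := 2 * Y + 8) (by omega) (2 ^ (u + 3) * (Y + 3)) 1 (by norm_num) h1
  rw [mul_one] at h2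
  rw [e6, h2, L_pow (by norm_num) (by omega), ← e5, L_mersenne]
  ring

/-- The upper bound to the right of the powers of two. -/
theorem L_right (b N : ℕ) (hb : b < 2 ^ N) : L (2 ^ N + b) 1 ≤ 1 + 3 * b := by
  rcases Nat.eq_zero_or_pos b with h | h
  · subst h
    rw [add_zero, ← mul_one (2 ^ N), L_last (by norm_num)]
  · rw [L_eq (k := N) (r := b) (by norm_num) (by rw [mul_one]) h (by rw [mul_one]; exact hb), mul_one]
    have h1 : 1 < 2 ^ b := Nat.one_lt_two_pow (by omega)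
    have := L_le b N 1 b (by norm_num) h h1 Nat.lt_two_pow_self (by rw [mul_one]; exact hb.le)
    rw [mul_one] at this
    omega

theorem L_log (n m : ℕ) (hn : 0 < n) (hm : 0 < m) (h : n < 2 ^ m) : L n 1 ≤ 3 * m := by
  have h1 : 1 < 2 ^ m := Nat.one_lt_two_pow (by omega)
  have := L_le m 0 n 1 hn (by norm_num) h h1 (by rw [pow_zero, one_mul]; exact hn)
  rwa [pow_zero, one_mul] at this

/-! ### Unboundedness to the left -/

theorem ev_pos (x y : ℤ) (h : 0 < x ∨ (x = 0 ∧ 0 < y)) : ∃ M : ℕ, ∀ m ≥ M, 0 < x * 2 ^ m + y := by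
  rcases h with h | ⟨h, h'⟩
  · refine ⟨y.natAbs, fun m hm => ?_⟩
    have h1 : (y.natAbs : ℤ) < 2 ^ m := by
      have : m < 2 ^ m := Nat.lt_two_pow_self
      exact_mod_cast lt_of_le_of_lt hm this
    have h2 : -(y.natAbs : ℤ) ≤ y := by omega
    have h3 : (2 : ℤ) ^ m ≤ x * 2 ^ m := by
      have : (0 : ℤ) < 2 ^ m := by positivity
      nlinarith
    linarith
  · refine ⟨0, fun m _ => ?_⟩
    rw [h]
    linarith

/-- The nondegenerate families `(a 2 ^ m + b, a' 2 ^ m + b')`. -/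
structure Good (r : ℕ) (a b a' b' : ℤ) : Prop where
  ha : 0 < a
  ha' : 0 ≤ a'
  hord : a' < a ∨ (a' = a ∧ b' < b)
  hsign : b * b' < 0 ∨ (b = 0 ∧ b' ≠ 0 ∧ 0 < a')
  hzero : a' = 0 → 0 < b'
  hdet : a * b' - a' * b ≠ 0
  hr : (r : ℤ) ∣ a * b' - a' * b
  hng : ¬ ((r : ℤ) ∣ a ∧ (r : ℤ) ∣ a')

theorem big (r : ℕ) (hrp : r.Prime) (hr2 : r ≠ 2) (l : ℕ) : ∀ a b a' b' : ℤ, Good r a b a' b' →
    ∃ M : ℕ, ∀ m ≥ M, ∀ p q : ℕ, (p : ℤ) = a * 2 ^ m + b → (q : ℤ) = a' * 2 ^ m + b' → l < L p q := by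
  have hrZ : Prime (r : ℤ) := Nat.prime_iff_prime_int.1 hrp
  have hr2' : ¬ (r : ℤ) ∣ 2 := by
    intro h
    have h1 : r ∣ 2 := by exact_mod_cast h
    exact hr2 ((Nat.prime_dvd_prime_iff_eq hrp Nat.prime_two).1 h1)
  have hrpow : ∀ (k : ℕ) (x : ℤ), (r : ℤ) ∣ 2 ^ k * x → (r : ℤ) ∣ x := by
    intro k x h
    rcases hrZ.dvd_or_dvd h with h | h
    · exact absurd (hrZ.dvd_of_dvd_pow h) hr2'
    · exact h
  induction l with
  | zero => intro a b a' b' _; exact ⟨0, fun m _ p q _ _ => L_pos p q⟩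
  | succ l ih =>
    intro a b a' b' hG
    obtain ⟨ha, ha', hord, hsign, hzero, hdet, hr, hng⟩ := hG
    rcases ha'.eq_or_lt with h0 | h0
    · -- `a' = 0`
      subst h0
      have hb' := hzero rfl
      have hb : b < 0 := by
        rcases hsign with h | ⟨_, _, h⟩
        · by_contra hcon
          rw [not_lt] at hcon
          have := mul_nonneg hcon hb'.le
          omega
        · exact absurd h (lt_irrefl _)
      have hra : ¬ (r : ℤ) ∣ a := fun h => hng ⟨h, dvd_zero _⟩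
      have hrb' : (r : ℤ) ∣ b' := by
        rw [zero_mul, sub_zero] at hr
        exact (hrZ.dvd_or_dvd hr).resolve_left hra
      obtain ⟨c, hc⟩ : ∃ c : ℕ, (c : ℤ) = b' := ⟨b'.toNat, Int.toNat_of_nonneg hb'.le⟩
      obtain ⟨x, hx⟩ : ∃ x : ℕ, (x : ℤ) = a := ⟨a.toNat, Int.toNat_of_nonneg ha.le⟩
      subst hc hx
      have hc0 : 0 < c := by exact_mod_cast hb'
      have hx0 : 0 < x := by exact_mod_cast ha
      have hcA : c ≤ x * 2 ^ c := by
        calc c ≤ 2 ^ c := Nat.lt_two_pow_self.le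
          _ = 1 * 2 ^ c := (one_mul _).symm
          _ ≤ x * 2 ^ c := Nat.mul_le_mul_right _ hx0
      obtain ⟨k, h1, h2⟩ := exists_k hc0 hcA
      have h1' : 2 ^ k * c ≠ x * 2 ^ c := by
        intro h
        apply hra
        apply hrpow c
        have h3 : (2 : ℤ) ^ c * x = 2 ^ k * c := by
          rw [mul_comm ((2 : ℤ) ^ c)]
          exact_mod_cast h.symm
        rw [h3]
        exact Dvd.dvd.mul_left hrb' _
      have h1'' : 2 ^ k * c < x * 2 ^ c := lt_of_le_of_ne h1 h1'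
      have h1z : (2 : ℤ) ^ k * c < x * 2 ^ c := by exact_mod_cast h1''
      have h2z : (x : ℤ) * 2 ^ c < 2 ^ (k + 1) * c := by exact_mod_cast h2
      have hcz : (0 : ℤ) < c := by exact_mod_cast hc0
      have hkz : (0 : ℤ) < 2 ^ k := by positivity
      obtain ⟨M1, hM1⟩ := ih (2 ^ k * c) 0 (x * 2 ^ c - 2 ^ k * c) b
        { ha := by positivity
          ha' := by linarith
          hord := by
            left
            rw [pow_succ] at h2z
            linarith
          hsign := Or.inr ⟨rfl, hb.ne, by linarith⟩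
          hzero := fun h => by linarith
          hdet := by
            rw [mul_zero, sub_zero]
            exact mul_ne_zero (mul_pos hkz hcz).ne' hb.ne
          hr := by
            rw [mul_zero, sub_zero]
            exact Dvd.dvd.mul_right (Dvd.dvd.mul_left hrb' _) _
          hng := by
            rintro ⟨g1, g2⟩
            have g3 := dvd_add g2 g1
            rw [sub_add_cancel, mul_comm] at g3
            exact hra (hrpow _ _ g3) }
      obtain ⟨M2, hM2⟩ := ev_pos ((x : ℤ) * 2 ^ c - 2 ^ k * c) b (Or.inl (by linarith))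
      obtain ⟨M3, hM3⟩ := ev_pos (2 ^ (k + 1) * c - (x : ℤ) * 2 ^ c) (-b) (Or.inl (by linarith))
      refine ⟨c + (M1 + M2 + M3), fun m hm p q hp hq => ?_⟩
      obtain ⟨m', rfl⟩ : ∃ m', m = c + m' := ⟨m - c, by omega⟩
      have hqc : q = c := by
        rw [zero_mul, zero_add] at hq
        exact_mod_cast hq
      subst hqc
      have hM2' := hM2 m' (by omega)
      have hM3' := hM3 m' (by omega)
      have e1 : (p : ℤ) = x * 2 ^ q * 2 ^ m' + b := by rw [hp, pow_add]; ring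
      have f1 : 2 ^ (k + m') * q < p := by
        have : (2 : ℤ) ^ (k + m') * q < p := by
          rw [e1, pow_add]
          have e2 : ((x : ℤ) * 2 ^ q - 2 ^ k * q) * 2 ^ m' + b = x * 2 ^ q * 2 ^ m' + b - 2 ^ k * 2 ^ m' * q := by ring
          rw [e2] at hM2'
          linarith
        exact_mod_cast this
      have f2 : p < 2 ^ (k + m' + 1) * q := by
        have : (p : ℤ) < 2 ^ (k + m' + 1) * q := by
          rw [e1]
          have e2 : ((2 : ℤ) ^ (k + 1) * q - x * 2 ^ q) * 2 ^ m' + -b =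
            2 ^ (k + m' + 1) * q - (x * 2 ^ q * 2 ^ m' + b) := by ring
          rw [e2] at hM3'
          linarith
        exact_mod_cast this
      rw [L_step hc0 f1 f2]
      have := hM1 m' (by omega) (2 ^ (k + m') * q) (p - 2 ^ (k + m') * q) (by push_cast; ring)
        (by
          rw [Nat.cast_sub f1.le, e1]
          push_cast
          ring)
      omega
    · -- `0 < a'`
      obtain ⟨k, hk1, hk2⟩ : ∃ k : ℕ, (0 < a - 2 ^ k * a' ∨ (a - 2 ^ k * a' = 0 ∧ 0 ≤ b - 2 ^ k * b')) ∧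
          (0 < 2 ^ (k + 1) * a' - a ∨ (2 ^ (k + 1) * a' - a = 0 ∧ 0 < 2 ^ (k + 1) * b' - b)) := by
        obtain ⟨x, hx⟩ : ∃ x : ℕ, (x : ℤ) = a := ⟨a.toNat, Int.toNat_of_nonneg ha.le⟩
        obtain ⟨c, hc⟩ : ∃ c : ℕ, (c : ℤ) = a' := ⟨a'.toNat, Int.toNat_of_nonneg ha'⟩
        subst hc hx
        have hc0 : 0 < c := by exact_mod_cast h0
        have hcx : c ≤ x := by
          rcases hord with h | ⟨h, _⟩
          · exact_mod_cast h.le
          · exact_mod_cast h.le
        obtain ⟨k, h1, h2⟩ := exists_k hc0 hcx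
        have h1z : (2 : ℤ) ^ k * c ≤ x := by exact_mod_cast h1
        have h2z : (x : ℤ) < 2 ^ (k + 1) * c := by exact_mod_cast h2
        rcases h1z.eq_or_lt with h | h
        · rcases le_or_gt (2 ^ k * b') b with hb | hb
          · exact ⟨k, Or.inr ⟨by linarith, by linarith⟩, Or.inl (by linarith)⟩
          · rcases k with _ | k
            · exfalso
              rw [pow_zero, one_mul] at h hb
              rcases hord with h' | ⟨_, h'⟩
              · omega
              · omega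
            · refine ⟨k, Or.inl ?_, Or.inr ⟨by linarith, by linarith⟩⟩
              have h3 : (0 : ℤ) < 2 ^ k * c := by positivity
              rw [pow_succ] at h
              linarith
        · exact ⟨k, Or.inl (by linarith), Or.inl (by linarith)⟩
      have hkz : (0 : ℤ) < 2 ^ k := by positivity
      have hdet1 : 2 ^ k * a' * (b - 2 ^ k * b') - (a - 2 ^ k * a') * (2 ^ k * b') = -(2 ^ k * (a * b' - a' * b)) := by
        ring
      have hk1' : 0 < a - 2 ^ k * a' ∨ (a - 2 ^ k * a' = 0 ∧ 0 < b - 2 ^ k * b') := by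
        rcases hk1 with h | ⟨h, h'⟩
        · exact Or.inl h
        · right
          refine ⟨h, lt_of_le_of_ne h' fun h'' => hdet ?_⟩
          have : 2 ^ k * (a * b' - a' * b) = 0 := by
            rw [← neg_eq_zero, ← hdet1, ← h'', h]
            ring
          exact (mul_eq_zero.1 this).resolve_left hkz.ne'
      have hb'0 : b' ≠ 0 := by
        rcases hsign with h | ⟨_, h, _⟩
        · rintro rfl
          simp at h
        · exact h
      have hneg : 2 ^ k * b' * (b - 2 ^ k * b') < 0 := by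
        have h3 : 0 < (2 ^ k * b') ^ 2 := by positivity
        have h4 : 2 ^ k * (b * b') ≤ 0 := by
          rcases hsign with h | ⟨h, _, _⟩
          · nlinarith
          · rw [h]; simp
        nlinarith
      obtain ⟨M1, hM1⟩ := ih (2 ^ k * a') (2 ^ k * b') (a - 2 ^ k * a') (b - 2 ^ k * b')
        { ha := by positivity
          ha' := by
            rcases hk1 with h | ⟨h, _⟩
            · exact h.le
            · exact h.symm.le
          hord := by
            rw [pow_succ] at hk2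
            rcases hk2 with h | ⟨h, h'⟩
            · left; linarith
            · right; exact ⟨by linarith, by linarith⟩
          hsign := Or.inl hneg
          hzero := by
            intro h
            rcases hk1' with h' | ⟨_, h'⟩
            · omega
            · exact h'
          hdet := by
            rw [hdet1]
            exact neg_ne_zero.2 (mul_ne_zero hkz.ne' hdet)
          hr := by
            rw [hdet1]
            exact (Dvd.dvd.mul_left hr _).neg_right
          hng := by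
            rintro ⟨g1, g2⟩
            have g3 := dvd_add g2 g1
            rw [sub_add_cancel] at g3
            exact hng ⟨g3, hrpow _ _ g1⟩ }
      obtain ⟨M2, hM2⟩ := ev_pos _ _ hk1'
      obtain ⟨M3, hM3⟩ := ev_pos _ _ hk2
      obtain ⟨M4, hM4⟩ := ev_pos a' b' (Or.inl h0)
      refine ⟨M1 + M2 + M3 + M4, fun m hm p q hp hq => ?_⟩
      have hM2' := hM2 m (by omega)
      have hM3' := hM3 m (by omega)
      have hM4' := hM4 m (by omega)
      have hq0 : 0 < q := by
        rw [← hq] at hM4'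
        exact_mod_cast hM4'
      have f1 : 2 ^ k * q < p := by
        have : (2 : ℤ) ^ k * q < p := by
          rw [hp, hq]
          have e2 : (a - 2 ^ k * a') * 2 ^ m + (b - 2 ^ k * b') = a * 2 ^ m + b - 2 ^ k * (a' * 2 ^ m + b') := by ring
          rw [e2] at hM2'
          linarith
        exact_mod_cast this
      have f2 : p < 2 ^ (k + 1) * q := by
        have : (p : ℤ) < 2 ^ (k + 1) * q := by
          rw [hp, hq]
          have e2 : (2 ^ (k + 1) * a' - a) * 2 ^ m + (2 ^ (k + 1) * b' - b) =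
            2 ^ (k + 1) * (a' * 2 ^ m + b') - (a * 2 ^ m + b) := by ring
          rw [e2] at hM3'
          linarith
        exact_mod_cast this
      rw [L_step hq0 f1 f2]
      have := hM1 m (by omega) (2 ^ k * q) (p - 2 ^ k * q) (by push_cast; rw [hq]; ring)
        (by
          rw [Nat.cast_sub f1.le]
          push_cast
          rw [hp, hq]
          ring)
      omega

/-- **Unboundedness** to the left of the powers of two. -/
theorem L_left (d : ℕ) (hd : 0 < d) (B : ℕ) : ∃ M : ℕ, ∀ N ≥ M, B < L (2 ^ N - d) 1 := by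
  obtain ⟨i, e, he, hde⟩ := Nat.exists_eq_two_pow_mul_odd hd.ne'
  -- odd `d`
  have key : ∃ M : ℕ, ∀ N ≥ M, B < L (2 ^ N - e) 1 := by
    rcases Nat.lt_or_ge e 2 with h | h
    · have h1 : e = 1 := by
        rcases he with ⟨x, hx⟩
        omega
      subst h1
      refine ⟨B + 3, fun N hN => ?_⟩
      obtain ⟨m, rfl⟩ : ∃ m, N = m + 2 := ⟨N - 2, by omega⟩
      rw [L_mersenne]
      omega
    · have hrp : (e.minFac).Prime := Nat.minFac_prime (by omega)
      have hrd : e.minFac ∣ e := Nat.minFac_dvd e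
      have hr2 : e.minFac ≠ 2 := by
        intro h'
        rw [h'] at hrd
        rcases he with ⟨x, hx⟩
        omega
      have he0 : (0 : ℤ) < e := by exact_mod_cast (by omega : 0 < e)
      obtain ⟨M, hM⟩ := big e.minFac hrp hr2 B 1 (-e) 0 e
        { ha := one_pos
          ha' := le_rfl
          hord := Or.inl one_pos
          hsign := Or.inl (by nlinarith)
          hzero := fun _ => he0
          hdet := by simpa using he0.ne'
          hr := by simpa using (by exact_mod_cast hrd : (e.minFac : ℤ) ∣ e)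
          hng := by
            rintro ⟨g, _⟩
            have : e.minFac ∣ 1 := by exact_mod_cast g
            exact hrp.one_lt.ne' (Nat.dvd_one.1 this) }
      refine ⟨M + 2 * e + 2, fun N hN => ?_⟩
      obtain ⟨m, rfl⟩ : ∃ m, N = m + 1 := ⟨N - 1, by omega⟩
      have h2 : 2 * e < 2 ^ m := lt_of_le_of_lt (by omega : 2 * e ≤ m) Nat.lt_two_pow_self
      have e1 : 2 ^ (m + 1) = 2 * 2 ^ m := by ring
      rw [L_eq' (s := 2 ^ m) (r := 2 ^ m - e) m rfl (by norm_num) (by ring) (by omega) (by omega) (by omega),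
        L_eq' (s := 2 ^ m - e) (r := e) 0 (pow_zero 2) (by omega) (by ring) (by omega) (by omega) (by omega)]
      have := hM m (by omega) (2 ^ m - e) e (by rw [Nat.cast_sub (by omega)]; push_cast; ring) (by ring)
      omega
  obtain ⟨M, hM⟩ := key
  refine ⟨i + M + e, fun N hN => ?_⟩
  obtain ⟨m, rfl⟩ : ∃ m, N = i + m := ⟨N - i, by omega⟩
  have h2 : e < 2 ^ m := lt_of_le_of_lt (by omega : e ≤ m) Nat.lt_two_pow_self
  have e1 : 2 ^ (i + m) - d = 2 ^ i * (2 ^ m - e) := by
    rw [hde, Nat.mul_sub, pow_add]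
  rw [e1, L_pow (by norm_num) (by omega)]
  exact hM m (by omega)

end Pool.Agent.Q252.CL
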