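import Mathlib

set_option autoImplicit false

/-!
# Integer linear recurrences of linear growth are affine along the multiples of some `T`
-/

namespace Pool.Agent.Q252.CL

open Polynomial

/-- difference operator -/
def Dl (u : ℕ → ℤ) : ℕ → ℤ := fun i => u (i + 1) - u i

theorem quad_zero (w : ℕ → ℤ) (C : ℝ) (hgr : ∀ i, |(w i : ℝ)| ≤ C * (i + 1)) (c : ℤ) (i0 : ℕ)
    (h : ∀ i ≥ i0, Dl (Dl w) i = c) : c = 0 := by
  by_contra hc
  have h1 : ∀ n : ℕ, Dl w (i0 + n) = Dl w i0 + n * c := by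
    intro n
    induction n with
    | zero => simp
    | succ n ih =>
      have := h (i0 + n) (by omega)
      unfold Dl at this ih ⊢
      rw [← add_assoc]
      push_cast
      linarith
  have h2 : ∀ n : ℕ, 2 * w (i0 + n) = 2 * w i0 + 2 * n * Dl w i0 + c * (n * (n - 1)) := by
    intro n
    induction n with
    | zero => simp
    | succ n ih =>
      have := h1 n
      rw [← add_assoc]
      have e : w (i0 + n + 1) = w (i0 + n) + Dl w (i0 + n) := by unfold Dl; ring
      rw [e, this]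
      push_cast
      linear_combination ih
  obtain ⟨K, hK⟩ : ∃ K : ℝ, K = 2 * C * (i0 + 1) + 2 * |(w i0 : ℝ)| + 2 * |(Dl w i0 : ℝ)| := ⟨_, rfl⟩
  have hC : 0 ≤ C := by
    have := (abs_nonneg _).trans (hgr 0)
    simpa using this
  obtain ⟨n, hn⟩ := exists_nat_gt (K + 3)
  have hK0 : 0 ≤ K := by rw [hK]; positivity
  have h3 : |(c : ℝ)| * (n * (n - 1)) ≤ K * (n + 1) := by
    have e : (c : ℝ) * (n * (n - 1)) = 2 * w (i0 + n) - 2 * w i0 - 2 * n * Dl w i0 := by
      have := h2 n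
      have h4 : (2 * (w (i0 + n) : ℝ)) = 2 * w i0 + 2 * n * Dl w i0 + c * (n * (n - 1)) := by exact_mod_cast this
      linarith
    have hn1 : (0 : ℝ) ≤ n * (n - 1) := by
      have : (1 : ℝ) ≤ n := by linarith
      have : (0 : ℝ) ≤ n - 1 := by linarith
      positivity
    have e2 : |(c : ℝ)| * (n * (n - 1)) = |(c : ℝ) * (n * (n - 1))| := by
      rw [abs_mul, abs_of_nonneg hn1]
    rw [e2, e]
    have g1 := hgr (i0 + n)
    push_cast at g1
    have g2 : |2 * (w (i0 + n) : ℝ) - 2 * w i0 - 2 * n * Dl w i0| ≤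
        2 * |(w (i0 + n) : ℝ)| + 2 * |(w i0 : ℝ)| + 2 * n * |(Dl w i0 : ℝ)| := by
      calc |2 * (w (i0 + n) : ℝ) - 2 * w i0 - 2 * n * Dl w i0|
          ≤ |2 * (w (i0 + n) : ℝ) - 2 * w i0| + |2 * (n : ℝ) * Dl w i0| := abs_sub _ _
        _ ≤ |2 * (w (i0 + n) : ℝ)| + |2 * (w i0 : ℝ)| + |2 * (n : ℝ) * Dl w i0| := by
            gcongr
            exact abs_sub _ _
        _ = _ := by
            rw [abs_mul, abs_mul, abs_mul (2 * (n : ℝ)), abs_of_pos (show (0 : ℝ) < 2 by norm_num),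
              abs_of_nonneg (show (0 : ℝ) ≤ 2 * n by positivity)]
    refine g2.trans ?_
    rw [hK]
    have hn0 : (0 : ℝ) ≤ n := Nat.cast_nonneg n
    have a1 := abs_nonneg (w i0 : ℝ)
    have a2 := abs_nonneg (Dl w i0 : ℝ)
    have hi : (0 : ℝ) ≤ i0 := Nat.cast_nonneg i0
    nlinarith [mul_nonneg hn0 a1, mul_nonneg hn0 a2, mul_nonneg hC (mul_nonneg hi hn0), mul_nonneg hC hn0]
  have h4 : (1 : ℝ) ≤ |(c : ℝ)| := by
    have : (1 : ℤ) ≤ |c| := Int.one_le_abs hc
    exact_mod_cast this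
  have hnn : (0 : ℝ) ≤ n * (n - 1) := by nlinarith
  have h5 : (n : ℝ) * (n - 1) ≤ K * (n + 1) := le_trans (by nlinarith) h3
  nlinarith

theorem Dl_gr (w : ℕ → ℤ) (C : ℝ) (hgr : ∀ i, |(w i : ℝ)| ≤ C * (i + 1)) :
    ∀ i, |(Dl w i : ℝ)| ≤ (3 * C) * (i + 1) := by
  intro i
  have hC : 0 ≤ C := by
    have := (abs_nonneg _).trans (hgr 0)
    simpa using this
  unfold Dl
  push_cast
  refine (abs_sub _ _).trans ?_
  have g1 := hgr (i + 1)
  have g2 := hgr i
  push_cast at g1
  have hi : (0 : ℝ) ≤ i := Nat.cast_nonneg i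
  nlinarith [mul_nonneg hC hi]

theorem second_zero (m : ℕ) : ∀ (u : ℕ → ℤ) (C : ℝ), (∀ i, |(u i : ℝ)| ≤ C * (i + 1)) → ∀ i0 : ℕ,
    (∀ i ≥ i0, Dl^[m + 2] u i = 0) → ∀ i ≥ i0, Dl (Dl u) i = 0 := by
  induction m with
  | zero => intro u C _ i0 h; simpa using h
  | succ m ih =>
    intro u C hgr i0 h
    have h1 : ∀ i ≥ i0, Dl (Dl (Dl u)) i = 0 := by
      apply ih (Dl u) (3 * C) (Dl_gr u C hgr) i0
      intro i hi
      have := h i hi
      rwa [show m + 1 + 2 = (m + 2) + 1 by ring, Function.iterate_succ_apply] at this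
    have h2 : ∀ i ≥ i0, Dl (Dl u) i = Dl (Dl u) i0 := by
      intro i hi
      induction i, hi using Nat.le_induction with
      | base => rfl
      | succ i hi ih' =>
        have := h1 i hi
        unfold Dl at this ih' ⊢
        linarith
    have h3 := quad_zero u C hgr (Dl (Dl u) i0) i0 h2
    intro i hi
    rw [h2 i hi, h3]

/-- The shift. -/
def shf : (ℕ → ℤ) →ₗ[ℤ] (ℕ → ℤ) := LinearMap.funLeft ℤ ℤ Nat.succ

/-- Integer sequences that are linearly independent over `ℤ` satisfy no nontrivial complex relation. -/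
theorem no_relation {n : ℕ} (b : Fin n → (ℕ → ℤ)) (hb : LinearIndependent ℤ b) (c : Fin n → ℂ)
    (h : ∀ j : ℕ, ∑ i, c i * (b i j : ℂ) = 0) : c = 0 := by
  classical
  by_contra hc
  obtain ⟨i0, hi0⟩ := Function.ne_iff.1 hc
  rw [Pi.zero_apply] at hi0
  let G : Submodule ℤ ℂ := Submodule.span ℤ (Set.range c)
  have : Module.Finite ℤ G := Module.Finite.span_of_finite ℤ (Set.finite_range c)
  have : Module.Free ℤ G := inferInstance
  let β := Module.finBasis ℤ G
  let g : Fin n → G := fun i => ⟨c i, Submodule.subset_span (Set.mem_range_self i)⟩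
  have hg0 : g i0 ≠ 0 := by
    intro h0
    exact hi0 (congrArg Subtype.val h0)
  obtain ⟨k, hk⟩ : ∃ k, β.coord k (g i0) ≠ 0 := by
    by_contra hcon
    push Not at hcon
    apply hg0
    apply β.repr.injective
    ext k
    rw [map_zero, Finsupp.zero_apply]
    exact hcon k
  have h1 : ∀ j : ℕ, ∑ i, (b i j) • g i = 0 := by
    intro j
    apply Subtype.ext
    rw [Submodule.coe_sum, Submodule.coe_zero, ← h j]
    apply Finset.sum_congr rfl
    intro i _
    rw [Submodule.coe_smul, zsmul_eq_mul, mul_comm]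
  have h2 : ∑ i, (β.coord k (g i)) • b i = 0 := by
    ext j
    have h3 := congrArg (β.coord k) (h1 j)
    rw [map_sum, map_zero] at h3
    rw [Finset.sum_apply, Pi.zero_apply, ← h3]
    apply Finset.sum_congr rfl
    intro i _
    rw [map_smul, Pi.smul_apply, smul_eq_mul, smul_eq_mul, mul_comm]
  exact hk (Fintype.linearIndependent_iff.1 hb (fun i => β.coord k (g i)) h2 i0)

/-- A sequence of linear growth that is geometric with a ratio of absolute value larger than one vanishes. -/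
theorem geom_zero (s : ℕ → ℂ) (μ : ℂ) (hμ : 1 < ‖μ‖) (hs : ∀ j, s (j + 1) = μ * s j) (C : ℝ)
    (hC : ∀ j : ℕ, ‖s j‖ ≤ C * (j + 1)) (j : ℕ) : s j = 0 := by
  have h1 : ∀ j, s j = μ ^ j * s 0 := by
    intro j
    induction j with
    | zero => simp
    | succ j ih => rw [hs, ih, pow_succ]; ring
  have h2 : ‖s 0‖ = 0 := by
    apply le_antisymm _ (norm_nonneg _)
    have hlim : Filter.Tendsto (fun j : ℕ => C * (((j : ℝ) ^ 1 / ‖μ‖ ^ j) + (j : ℝ) ^ 0 / ‖μ‖ ^ j)) Filter.atTop
        (nhds (C * (0 + 0))) :=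
      ((tendsto_pow_const_div_const_pow_of_one_lt 1 hμ).add
        (tendsto_pow_const_div_const_pow_of_one_lt 0 hμ)).const_mul C
    rw [add_zero, mul_zero] at hlim
    refine ge_of_tendsto' hlim fun j => ?_
    have hpos : 0 < ‖μ‖ ^ j := by positivity
    rw [pow_one, pow_zero, ← add_div, ← mul_div_assoc, le_div_iff₀ hpos]
    have := hC j
    rw [h1 j, norm_mul, norm_pow] at this
    linarith
  rw [h1, norm_eq_zero.1 h2, mul_zero]

theorem affine (Λ : Submodule ℤ (ℕ → ℤ)) (hfg : Λ.FG) (hsh : ∀ τ ∈ Λ, shf τ ∈ Λ)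
    (hgr : ∀ τ ∈ Λ, ∃ C : ℝ, ∀ j : ℕ, |(τ j : ℝ)| ≤ C * (j + 1)) :
    ∃ T d : ℕ, 0 < T ∧ ∀ τ ∈ Λ, ∀ i ≥ d, Dl (Dl (fun j => τ (T * j))) i = 0 := by
  classical
  have : Module.Finite ℤ Λ := Module.Finite.iff_fg.2 hfg
  have : Module.Free ℤ Λ := inferInstance
  let b := Module.finBasis ℤ Λ
  let E : Λ →ₗ[ℤ] Λ := shf.restrict hsh
  let N := LinearMap.toMatrixAlgEquiv b E
  let f : ℤ →+* ℂ := Int.castRingHom ℂ
  let NC := N.map f
  have hchar : NC.charpoly = N.charpoly.map f := by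
    rw [← Matrix.charpoly_map]
  have hE : ∀ (τ : Λ) (j : ℕ), (E τ : ℕ → ℤ) j = (τ : ℕ → ℤ) (j + 1) := fun τ j => rfl
  have hrec : ∀ i (j : ℕ), (b i : ℕ → ℤ) (j + 1) = ∑ k, N k i * (b k : ℕ → ℤ) j := by
    intro i j
    rw [← hE, ← b.sum_repr (E (b i)), Submodule.coe_sum, Finset.sum_apply]
    apply Finset.sum_congr rfl
    intro k _
    rw [Submodule.coe_smul, Pi.smul_apply, smul_eq_mul]
    congr 1
    show b.repr (E (b i)) k = LinearMap.toMatrixAlgEquiv b E k i
    rw [LinearMap.toMatrixAlgEquiv_apply]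
  have hli : LinearIndependent ℤ (fun i => (b i : ℕ → ℤ)) :=
    b.linearIndependent.map' Λ.subtype (Submodule.ker_subtype Λ)
  -- the eigenvalues are in the closed unit disc
  have hdisc : ∀ μ : ℂ, NC.charpoly.IsRoot μ → ‖μ‖ ≤ 1 := by
    intro μ hμ
    by_contra hcon
    rw [not_le] at hcon
    rw [IsRoot.def, Matrix.eval_charpoly] at hμ
    obtain ⟨c, hc0, hc⟩ := Matrix.exists_mulVec_eq_zero_iff.2 hμ
    have hc1 : ∀ k, ∑ i, NC k i * c i = μ * c k := by
      intro k
      have h1 := congrFun hc k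
      rw [Matrix.sub_mulVec, Pi.sub_apply, Pi.zero_apply, sub_eq_zero, Matrix.scalar_apply,
        Matrix.mulVec_diagonal] at h1
      rw [h1]
      rfl
    choose! C hC using fun i => hgr (b i : ℕ → ℤ) (b i).2
    apply hc0
    apply no_relation _ hli c
    apply geom_zero (fun j => ∑ i, c i * ((b i : ℕ → ℤ) j : ℂ)) μ hcon _ (∑ i, ‖c i‖ * C i)
    · intro j
      refine (norm_sum_le _ _).trans ?_
      rw [Finset.sum_mul]
      apply Finset.sum_le_sum
      intro i _
      rw [norm_mul, mul_assoc]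
      apply mul_le_mul_of_nonneg_left _ (norm_nonneg _)
      have := hC i j
      rwa [Complex.norm_intCast]
    · intro j
      calc ∑ i, c i * (((b i : ℕ → ℤ) (j + 1) : ℤ) : ℂ)
          = ∑ i, ∑ k, c i * (NC k i * ((b k : ℕ → ℤ) j : ℂ)) := by
            apply Finset.sum_congr rfl
            intro i _
            rw [hrec, Int.cast_sum, Finset.mul_sum]
            apply Finset.sum_congr rfl
            intro k _
            rw [Int.cast_mul]
            rfl
        _ = ∑ k, ∑ i, c i * (NC k i * ((b k : ℕ → ℤ) j : ℂ)) := Finset.sum_comm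
        _ = ∑ k, μ * c k * ((b k : ℕ → ℤ) j : ℂ) := by
            apply Finset.sum_congr rfl
            intro k _
            rw [← hc1 k, Finset.sum_mul]
            apply Finset.sum_congr rfl
            intro i _
            ring
        _ = μ * ∑ i, c i * ((b i : ℕ → ℤ) j : ℂ) := by
            rw [Finset.mul_sum]
            apply Finset.sum_congr rfl
            intro k _
            ring
  -- Kronecker
  have hmon : NC.charpoly.Monic := Matrix.charpoly_monic _
  have hmahler : (N.charpoly.map f).mahlerMeasure = 1 := by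
    rw [← hchar, mahlerMeasure_eq_leadingCoeff_mul_prod_roots, hmon.leadingCoeff, norm_one, one_mul]
    apply Multiset.prod_eq_one
    intro x hx
    obtain ⟨μ, hμ, rfl⟩ := Multiset.mem_map.1 hx
    exact max_eq_left (hdisc μ (isRoot_of_mem_roots hμ))
  have hunit : ∀ μ ∈ NC.charpoly.roots, ∃ n : ℕ, 0 < n ∧ (μ = 0 ∨ μ ^ n = 1) := by
    intro μ hμ
    by_cases h0 : μ = 0
    · exact ⟨1, one_pos, Or.inl h0⟩
    · have h1 : μ ∈ N.charpoly.aroots ℂ := by
        rw [aroots_def]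
        rw [hchar] at hμ
        exact hμ
      obtain ⟨n, hn, hn1⟩ := pow_eq_one_of_mahlerMeasure_eq_one hmahler h0 h1
      exact ⟨n, hn, Or.inr hn1⟩
  choose! nn hnn using hunit
  let T := ∏ μ ∈ NC.charpoly.roots.toFinset, nn μ
  have hT : 0 < T := Finset.prod_pos fun μ hμ => (hnn μ (Multiset.mem_toFinset.1 hμ)).1
  have hroots : ∀ μ ∈ NC.charpoly.roots, μ ^ (T + 1) - μ = 0 := by
    intro μ hμ
    rcases (hnn μ hμ).2 with h | h
    · rw [h]; simp
    · obtain ⟨e, he⟩ : nn μ ∣ T := Finset.dvd_prod_of_mem _ (Multiset.mem_toFinset.2 hμ)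
      rw [pow_succ, he, pow_mul, h, one_pow, one_mul, sub_self]
  obtain ⟨m, hm⟩ : ∃ m, m = Multiset.card NC.charpoly.roots := ⟨_, rfl⟩
  have hdvd : NC.charpoly ∣ (X ^ (T + 1) - X) ^ m := by
    have h1 : NC.charpoly = (NC.charpoly.roots.map (fun a => X - C a)).prod :=
      ((IsAlgClosed.splits NC.charpoly).eq_prod_roots_of_monic hmon)
    rw [h1, hm, ← Multiset.prod_replicate, ← Multiset.map_const']
    apply Multiset.prod_dvd_prod_of_dvd
    intro μ hμ
    rw [dvd_iff_isRoot, IsRoot.def]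
    simpa using hroots μ hμ
  have hNC : (NC ^ (T + 1) - NC) ^ m = 0 := by
    obtain ⟨q, hq⟩ := hdvd
    have h1 := congrArg (aeval NC) hq
    rw [map_mul, Matrix.aeval_self_charpoly, zero_mul] at h1
    simpa using h1
  have hN : (N ^ (T + 1) - N) ^ m = 0 := by
    have hinj : Function.Injective (f.mapMatrix : Matrix (Fin (Module.finrank ℤ Λ)) (Fin (Module.finrank ℤ Λ)) ℤ →+*
        Matrix (Fin (Module.finrank ℤ Λ)) (Fin (Module.finrank ℤ Λ)) ℂ) :=
      Matrix.map_injective Int.cast_injective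
    apply hinj
    rw [map_zero, map_pow, map_sub, map_pow]
    exact hNC
  have hEE : (E ^ (T + 1) - E) ^ m = 0 := by
    apply (LinearMap.toMatrixAlgEquiv b).injective
    rw [map_zero, map_pow, map_sub, map_pow]
    exact hN
  refine ⟨T, m, hT, ?_⟩
  -- `E ^ m (E ^ T - 1) ^ m = 0`
  have hcomm : (E ^ (T + 1) - E) ^ m = E ^ m * (E ^ T - 1) ^ m := by
    have e1 : E ^ (T + 1) - E = E * (E ^ T - 1) := by
      rw [mul_sub, mul_one, pow_succ']
    rw [e1]
    apply Commute.mul_pow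
    exact ((Commute.refl E).pow_right T).sub_right (Commute.one_right E)
  rw [hcomm] at hEE
  have hpow : ∀ (j : ℕ) (τ : Λ) (i : ℕ), ((E ^ j) τ : ℕ → ℤ) i = (τ : ℕ → ℤ) (i + j) := by
    intro j
    induction j with
    | zero => intro τ i; simp
    | succ j ih =>
      intro τ i
      rw [pow_succ', Module.End.mul_apply, hE, ih, show i + 1 + j = i + (j + 1) by ring]
  have hD : ∀ (n : ℕ) (τ : Λ) (i : ℕ), (((E ^ T - 1) ^ n) τ : ℕ → ℤ) (T * i) =
      Dl^[n] (fun j => (τ : ℕ → ℤ) (T * j)) i := by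
    intro n
    induction n with
    | zero => intro τ i; simp
    | succ n ih =>
      intro τ i
      have e2 : (fun j => (((E ^ T - 1) τ : Λ) : ℕ → ℤ) (T * j)) = Dl (fun j => (τ : ℕ → ℤ) (T * j)) := by
        funext j
        unfold Dl
        rw [LinearMap.sub_apply, Submodule.coe_sub, Pi.sub_apply, hpow, Module.End.one_apply]
        show _ = (τ : ℕ → ℤ) (T * (j + 1)) - (τ : ℕ → ℤ) (T * j)
        rw [mul_add, mul_one]
      rw [pow_succ, Module.End.mul_apply, ih, Function.iterate_succ_apply, e2]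
  intro τ hτ i hi
  obtain ⟨C, hC⟩ := hgr τ hτ
  have hz : ∀ i ≥ m, Dl^[m + 2] (fun j => τ (T * j)) i = 0 := by
    intro i hi
    have h1 : ∀ i ≥ m, Dl^[m] (fun j => τ (T * j)) i = 0 := by
      intro i hi
      rw [← hD m ⟨τ, hτ⟩ i]
      have h2 := congrArg (fun F : Λ →ₗ[ℤ] Λ => (F ⟨τ, hτ⟩ : ℕ → ℤ) (T * i - m)) hEE
      simp only [Module.End.mul_apply, hpow] at h2
      have h3 : T * i - m + m = T * i := by
        have : 1 * i ≤ T * i := Nat.mul_le_mul_right _ hT
        omega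
      rw [h3] at h2
      rw [h2]
      rfl
    rw [show m + 2 = 2 + m by ring, Function.iterate_add_apply]
    show Dl (Dl (Dl^[m] (fun j => τ (T * j)))) i = 0
    unfold Dl at h1 ⊢
    rw [h1 i hi, h1 (i + 1) (by omega), h1 (i + 1 + 1) (by omega)]
    ring
  have hgr' : ∀ i : ℕ, |((τ (T * i) : ℤ) : ℝ)| ≤ (C * T) * (i + 1) := by
    intro i
    refine (hC (T * i)).trans ?_
    have hC0 : 0 ≤ C := by
      have := (abs_nonneg _).trans (hC 0)
      simpa using this
    have hT1 : (1 : ℝ) ≤ T := by exact_mod_cast hT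
    push_cast
    rw [mul_assoc]
    apply mul_le_mul_of_nonneg_left _ hC0
    nlinarith
  exact second_zero m _ (C * T) hgr' m hz i hi

end Pool.Agent.Q252.CL
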