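import Pool.Agent.Q252.CL.Forms
import Pool.Agent.Q252.CL.LinAlg

set_option autoImplicit false

/-!
# The continued logarithm length is not `k`-regular
-/

namespace Pool.Agent.Q252.CL

/-- the `k`-kernel -/
def kernel (k : ℕ) (a : ℕ → ℤ) : Set (ℕ → ℤ) := {b | ∃ e r : ℕ, r < k ^ e ∧ b = fun n => a (k ^ e * n + r)}

/-- `k`-regular integer sequences -/
def Regular (k : ℕ) (a : ℕ → ℤ) : Prop := (Submodule.span ℤ (kernel k a)).FG

/-- The sequence of the lengths of the continued logarithm expansions of the positive integers. -/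
def len (n : ℕ) : ℤ := if n = 0 then 0 else (L n 1 : ℤ)

theorem len_pos {n : ℕ} (hn : 0 < n) : len n = L n 1 := by
  rw [len, if_neg hn.ne']

theorem len_le (n m : ℕ) (h : n < 2 ^ m) : |(len n : ℝ)| ≤ 3 * m := by
  rcases Nat.eq_zero_or_pos n with h0 | h0
  · subst h0
    simp [len]
  · rw [len_pos h0]
    have hm : 0 < m := by
      rcases Nat.eq_zero_or_pos m with h1 | h1
      · subst h1
        simp at h
        omega
      · exact h1
    have := L_log n m h0 hm h
    push_cast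
    rw [abs_of_nonneg (by positivity)]
    exact_mod_cast this

theorem not_regular_pow (e : ℕ) (he : 0 < e) : ¬ Regular (2 ^ e) len := by
  intro hreg
  unfold Regular at hreg
  obtain ⟨W, hW⟩ : ∃ W, W = Submodule.span ℤ (kernel (2 ^ e) len) := ⟨_, rfl⟩
  rw [← hW] at hreg
  let φ : (ℕ → ℤ) →ₗ[ℤ] (ℕ → ℤ) := LinearMap.funLeft ℤ ℤ (fun j => 2 ^ (e * j) - 1)
  let ψ : (ℕ → ℤ) →ₗ[ℤ] (ℕ → ℤ) := LinearMap.funLeft ℤ ℤ (fun n => 2 ^ e * n + (2 ^ e - 1))
  have h2e : 1 ≤ 2 ^ e := Nat.one_le_two_pow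
  have hψ : ∀ σ ∈ W, ψ σ ∈ W := by
    have : W ≤ W.comap ψ := by
      conv_lhs => rw [hW]
      rw [Submodule.span_le]
      rintro b ⟨f, r, hr, rfl⟩
      show ψ (fun n => len ((2 ^ e) ^ f * n + r)) ∈ W
      rw [hW]
      apply Submodule.subset_span
      refine ⟨f + 1, (2 ^ e) ^ f * (2 ^ e - 1) + r, ?_, ?_⟩
      · have h1 : (2 ^ e) ^ (f + 1) = (2 ^ e) ^ f * (2 ^ e - 1) + (2 ^ e) ^ f := by
          have h4 : (2 ^ e) ^ f ≤ (2 ^ e) ^ f * 2 ^ e := Nat.le_mul_of_pos_right _ h2e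
          rw [pow_succ, Nat.mul_sub, mul_one]
          omega
        omega
      · funext n
        show len ((2 ^ e) ^ f * (2 ^ e * n + (2 ^ e - 1)) + r) = _
        congr 1
        ring
    exact this
  have hshift : ∀ (σ : ℕ → ℤ), shf (φ σ) = φ (ψ σ) := by
    intro σ
    funext j
    show σ (2 ^ (e * (j + 1)) - 1) = σ (2 ^ e * (2 ^ (e * j) - 1) + (2 ^ e - 1))
    congr 1
    have h1 : 1 ≤ 2 ^ (e * j) := Nat.one_le_two_pow
    rw [mul_add, mul_one, pow_add, Nat.mul_sub, mul_one, mul_comm (2 ^ (e * j))]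
    have h3 : 2 ^ e * 1 ≤ 2 ^ e * 2 ^ (e * j) := Nat.mul_le_mul_left _ h1
    omega
  obtain ⟨T, d, hT, haff⟩ := affine (W.map φ) (hreg.map φ)
    (by
      rintro _ ⟨σ, hσ, rfl⟩
      rw [hshift]
      exact ⟨ψ σ, hψ σ hσ, rfl⟩)
    (by
      rintro _ ⟨σ, hσ, rfl⟩
      rw [SetLike.mem_coe, hW] at hσ
      induction hσ using Submodule.span_induction with
      | mem b hb =>
        obtain ⟨f, r, hr, rfl⟩ := hb
        refine ⟨3 * e * (f + 1), fun j => ?_⟩
        have h1 : (2 ^ e) ^ f * (2 ^ (e * j) - 1) + r < 2 ^ (e * f + e * j) := by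
          have h2 : 1 ≤ 2 ^ (e * j) := Nat.one_le_two_pow
          have h3 : (2 ^ e) ^ f * (2 ^ (e * j) - 1) + (2 ^ e) ^ f = 2 ^ (e * f + e * j) := by
            rw [← Nat.mul_succ, Nat.succ_eq_add_one, Nat.sub_add_cancel h2, ← pow_mul, pow_add]
          omega
        refine (len_le _ _ h1).trans ?_
        push_cast
        have a1 : (0 : ℝ) ≤ e := Nat.cast_nonneg e
        have a2 : (0 : ℝ) ≤ f := Nat.cast_nonneg f
        have a3 : (0 : ℝ) ≤ j := Nat.cast_nonneg j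
        nlinarith [mul_nonneg a1 a2, mul_nonneg a1 a3, mul_nonneg a1 (mul_nonneg a2 a3)]
      | zero => exact ⟨0, fun j => by simp⟩
      | add x y _ _ hx hy =>
        obtain ⟨C, hC⟩ := hx
        obtain ⟨C', hC'⟩ := hy
        refine ⟨C + C', fun j => ?_⟩
        rw [map_add, Pi.add_apply]
        push_cast
        refine (abs_add_le _ _).trans ?_
        rw [add_mul]
        exact add_le_add (hC j) (hC' j)
      | smul z x _ hx =>
        obtain ⟨C, hC⟩ := hx
        refine ⟨|(z : ℝ)| * C, fun j => ?_⟩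
        rw [map_smul, Pi.smul_apply, smul_eq_mul]
        push_cast
        rw [abs_mul, mul_assoc]
        exact mul_le_mul_of_nonneg_left (hC j) (abs_nonneg _))
  obtain ⟨f, hf⟩ : ∃ f, f = T * (d + 4) := ⟨_, rfl⟩
  have hf4 : 4 ≤ f := by
    rw [hf]
    calc 4 ≤ 1 * (d + 4) := by omega
      _ ≤ T * (d + 4) := Nat.mul_le_mul_right _ hT
  have hef4 : 4 ≤ e * f := hf4.trans (Nat.le_mul_of_pos_left f he)
  have h1lt : 1 < (2 ^ e) ^ f := by
    rw [← pow_mul]
    exact Nat.one_lt_two_pow (by omega)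
  have hmem : (fun n => len ((2 ^ e) ^ f * n + 1)) ∈ W := by
    rw [hW]
    exact Submodule.subset_span ⟨f, 1, h1lt, rfl⟩
  obtain ⟨u, hu⟩ : ∃ u : ℕ → ℤ, u = fun i => φ (fun n => len ((2 ^ e) ^ f * n + 1)) (T * i) := ⟨_, rfl⟩
  have hval : ∀ i, u i = L (2 ^ (e * f + e * (T * i)) - (2 ^ (e * f) - 1)) 1 := by
    intro i
    rw [hu]
    show len ((2 ^ e) ^ f * (2 ^ (e * (T * i)) - 1) + 1) = _
    rw [len_pos (by omega)]
    congr 2
    rw [← pow_mul, Nat.mul_sub, mul_one, pow_add]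
    have h1 : 1 ≤ 2 ^ (e * (T * i)) := Nat.one_le_two_pow
    have h2 : 2 ^ (e * f) * 1 ≤ 2 ^ (e * f) * 2 ^ (e * (T * i)) := Nat.mul_le_mul_left _ h1
    have h3 : 1 ≤ 2 ^ (e * f) := Nat.one_le_two_pow
    omega
  have haff' : ∀ i ≥ d, Dl (Dl u) i = 0 := by
    intro i hi
    rw [hu]
    exact haff _ ⟨_, hmem, rfl⟩ i hi
  have hlin : ∀ n : ℕ, u (d + n) = u d + n * Dl u d ∧ Dl u (d + n) = Dl u d := by
    intro n
    induction n with
    | zero => simp
    | succ n ih =>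
      obtain ⟨ih1, ih2⟩ := ih
      have := haff' (d + n) (by omega)
      have e1 : u (d + (n + 1)) = u (d + n) + Dl u (d + n) := by
        unfold Dl
        rw [← add_assoc]
        ring
      refine ⟨?_, ?_⟩
      · rw [e1, ih1, ih2]
        push_cast
        ring
      · unfold Dl at this ih2 ⊢
        rw [← add_assoc]
        linarith
  have hv1 : u (d + 4) = 2 * (e * f : ℕ) + 1 := by
    rw [hval, ← hf]
    obtain ⟨t, ht⟩ : ∃ t, e * f = t + 4 := ⟨e * f - 4, by omega⟩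
    rw [ht]
    have := form_two t
    have e1 : 2 ^ (t + 4 + (t + 4)) - (2 ^ (t + 4) - 1) = 2 ^ (2 * (t + 4)) - 2 ^ (t + 4) + 1 := by
      rw [two_mul]
      have h2 : 1 ≤ 2 ^ (t + 4) := Nat.one_le_two_pow
      have h3 : 2 ^ (t + 4) ≤ 2 ^ (t + 4 + (t + 4)) := Nat.pow_le_pow_right (by norm_num) (by omega)
      omega
    rw [e1, this]
    push_cast
    ring
  have hv2 : u (2 * (d + 4)) = 2 * (e * f : ℕ) + 1 := by
    rw [hval]
    have e0 : e * (T * (2 * (d + 4))) = 2 * (e * f) := by rw [hf]; ring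
    rw [e0]
    obtain ⟨t, ht⟩ : ∃ t, e * f = t + 3 := ⟨e * f - 3, by omega⟩
    rw [ht]
    have := form_three t
    have e1 : 2 ^ (t + 3 + 2 * (t + 3)) - (2 ^ (t + 3) - 1) = 2 ^ (3 * (t + 3)) - 2 ^ (t + 3) + 1 := by
      rw [show t + 3 + 2 * (t + 3) = 3 * (t + 3) by ring]
      have h2 : 1 ≤ 2 ^ (t + 3) := Nat.one_le_two_pow
      have h3 : 2 ^ (t + 3) ≤ 2 ^ (3 * (t + 3)) := Nat.pow_le_pow_right (by norm_num) (by omega)
      omega
    rw [e1, this]
    push_cast
    ring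
  have hslope : Dl u d = 0 := by
    have h1 := (hlin 4).1
    have h2 := (hlin (d + 8)).1
    rw [hv1] at h1
    rw [show d + (d + 8) = 2 * (d + 4) by ring, hv2] at h2
    push_cast at h1 h2
    have h3 : ((d : ℤ) + 4) * Dl u d = 0 := by linarith
    rcases mul_eq_zero.1 h3 with h | h
    · omega
    · exact h
  have hconst : ∀ n : ℕ, u (d + n) = 2 * (e * f : ℕ) + 1 := by
    intro n
    have h1 := (hlin 4).1
    have h2 := (hlin n).1
    rw [hslope, mul_zero, add_zero] at h1 h2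
    rw [h2, ← h1, hv1]
  obtain ⟨M, hM⟩ := L_left (2 ^ (e * f) - 1) (by
    have := Nat.one_lt_two_pow (n := e * f) (by omega)
    omega) (2 * (e * f) + 1)
  have h1 := hconst M
  rw [hval] at h1
  have h2 := hM (e * f + e * (T * (d + M))) (by
    have : M ≤ e * (T * (d + M)) := by
      calc M ≤ d + M := by omega
        _ ≤ T * (d + M) := Nat.le_mul_of_pos_left _ hT
        _ ≤ _ := Nat.le_mul_of_pos_left _ he
    omega)
  push_cast at h1
  omega

/-- the ring homomorphism `ℤ → ℚ` on sequences -/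
def cst : (ℕ → ℤ) →ₗ[ℤ] (ℕ → ℚ) where
  toFun σ := fun n => (σ n : ℚ)
  map_add' x y := by funext n; simp
  map_smul' z x := by funext n; simp

theorem stable (g : ℕ → ℕ) (D : ℕ) (h : g 0 ≤ D) (hg : ∀ i, g (i + 1) ≤ g i) : ∃ i ≤ D, g i = g (i + 1) := by
  by_contra hcon
  push Not at hcon
  have h1 : ∀ i ≤ D + 1, g i + i ≤ D := by
    intro i
    induction i with
    | zero => intro _; simpa using h
    | succ i ih =>
      intro hi
      have h2 := ih (by omega)
      have h3 := hcon i (by omega)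
      have h4 := hg i
      omega
  have := h1 (D + 1) le_rfl
  omega

theorem not_regular_other (x k' : ℕ) (hodd : Odd k') (hk' : 3 ≤ k') : ¬ Regular (2 ^ x * k') len := by
  classical
  intro hreg
  obtain ⟨S, hS⟩ := hreg
  obtain ⟨k, hk⟩ : ∃ k, k = 2 ^ x * k' := ⟨_, rfl⟩
  rw [← hk] at hS
  let WQ : Submodule ℚ (ℕ → ℚ) := Submodule.span ℚ (cst '' (S : Set (ℕ → ℤ)))
  have hfin : (cst '' (S : Set (ℕ → ℤ))).Finite := S.finite_toSet.image _
  have : FiniteDimensional ℚ WQ := FiniteDimensional.span_of_finite ℚ hfin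
  obtain ⟨D, hD⟩ : ∃ D, D = Module.finrank ℚ WQ := ⟨_, rfl⟩
  have hspan : ∀ b ∈ Submodule.span ℤ (S : Set (ℕ → ℤ)), cst b ∈ WQ := by
    intro b hb
    induction hb using Submodule.span_induction with
    | mem b hb => exact Submodule.subset_span ⟨b, hb, rfl⟩
    | zero => rw [map_zero]; exact WQ.zero_mem
    | add x y _ _ hx hy => rw [map_add]; exact WQ.add_mem hx hy
    | smul z x _ hx => rw [map_smul]; exact zsmul_mem hx z
  have hker : ∀ b ∈ kernel k len, cst b ∈ WQ := by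
    intro b hb
    apply hspan
    rw [hS]
    exact Submodule.subset_span hb
  obtain ⟨m, hm⟩ : ∃ m, m = D + 1 := ⟨_, rfl⟩
  obtain ⟨f, hf⟩ : ∃ f, f = x * m := ⟨_, rfl⟩
  obtain ⟨K', hK'⟩ : ∃ K', K' = k' ^ m := ⟨_, rfl⟩
  have hK'odd : Odd K' := by rw [hK']; exact hodd.pow
  have hK : k ^ m = 2 ^ f * K' := by rw [hk, mul_pow, ← pow_mul, hf, hK']
  have hK'big : 2 ^ m < K' := by
    rw [hK', hm]
    exact Nat.pow_lt_pow_left (by omega) (by omega)
  obtain ⟨K, hKK⟩ : ∃ K, K = k ^ m := ⟨_, rfl⟩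
  rw [← hKK] at hK
  let V : ℕ → Submodule ℚ (ℕ → ℚ) := fun i =>
    Submodule.span ℚ {v | ∃ c : ℕ, 2 ^ (f + i) ≤ c ∧ c < K ∧ v = cst (fun n => len (K * n + c))}
  have hVW : ∀ i, V i ≤ WQ := by
    intro i
    rw [Submodule.span_le]
    rintro v ⟨c, _, hc, rfl⟩
    apply hker
    exact ⟨m, c, hKK ▸ hc, by rw [hKK]⟩
  have hanti : ∀ i, V (i + 1) ≤ V i := by
    intro i
    apply Submodule.span_mono
    rintro v ⟨c, h1, h2, rfl⟩
    exact ⟨c, le_trans (Nat.pow_le_pow_right (by norm_num) (by omega)) h1, h2, rfl⟩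
  have hfd : ∀ i, FiniteDimensional ℚ (V i) := fun i => Submodule.finiteDimensional_of_le (hVW i)
  obtain ⟨i, hiD, hi⟩ := stable (fun i => Module.finrank ℚ (V i)) D
    (by rw [hD]; exact Submodule.finrank_mono (hVW 0)) (fun i => Submodule.finrank_mono (hanti i))
  have hVV : V (i + 1) = V i := Submodule.eq_of_le_of_finrank_eq (hanti i) hi.symm
  have hlt : 2 ^ (f + i + 1) < K := by
    rw [hK, add_assoc, pow_add]
    apply Nat.mul_lt_mul_of_pos_left _ (by positivity)
    exact lt_of_le_of_lt (Nat.pow_le_pow_right (by norm_num) (by omega)) hK'big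
  have hmem : cst (fun n => len (K * n + 2 ^ (f + i))) ∈ V (i + 1) := by
    rw [hVV]
    apply Submodule.subset_span
    refine ⟨2 ^ (f + i), le_rfl, lt_trans ?_ hlt, rfl⟩
    exact Nat.pow_lt_pow_right (by norm_num) (by omega)
  -- powers of two
  have hK0 : 0 < K := lt_of_le_of_lt (Nat.zero_le _) hlt
  have hdvd : ∀ s : ℕ, K ∣ 2 ^ (f + i + 1 + Nat.totient K' * s) - 2 ^ (f + i + 1) := by
    intro s
    have h1 : 2 ^ (f + i + 1 + Nat.totient K' * s) - 2 ^ (f + i + 1) =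
        2 ^ f * (2 ^ (i + 1) * (2 ^ (Nat.totient K' * s) - 1)) := by
      rw [← mul_assoc, ← pow_add, Nat.mul_sub, mul_one, ← pow_add]
      congr 2
    rw [h1, hK]
    apply Nat.mul_dvd_mul_left
    apply Dvd.dvd.mul_left
    have h2 : 2 ^ Nat.totient K' ≡ 1 [MOD K'] := Nat.ModEq.pow_totient ((Nat.coprime_two_left).2 hK'odd)
    have h3 : 2 ^ (Nat.totient K' * s) ≡ 1 [MOD K'] := by
      rw [pow_mul]
      have := h2.pow s
      rwa [one_pow] at this
    exact (Nat.modEq_iff_dvd' (Nat.one_le_two_pow)).1 h3.symm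
  choose A hA using hdvd
  have htot : 0 < Nat.totient K' := Nat.totient_pos.2 (lt_of_le_of_lt (Nat.zero_le _) hK'big)
  have hA' : ∀ s, K * A s + 2 ^ (f + i + 1) = 2 ^ (f + i + 1 + Nat.totient K' * s) := by
    intro s
    rw [← hA s]
    have : 2 ^ (f + i + 1) ≤ 2 ^ (f + i + 1 + Nat.totient K' * s) := Nat.pow_le_pow_right (by norm_num) (by omega)
    omega
  have hbd : ∀ v ∈ V (i + 1), ∃ B : ℚ, ∀ s ≥ K, |v (A s)| ≤ B := by
    intro v hv
    induction hv using Submodule.span_induction with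
    | mem v hv =>
      obtain ⟨c, h1, h2, rfl⟩ := hv
      rw [← add_assoc] at h1
      refine ⟨1 + 3 * (c - 2 ^ (f + i + 1) : ℕ), fun s hs => ?_⟩
      show |((len (K * A s + c) : ℤ) : ℚ)| ≤ _
      have h3 : K * A s + c = 2 ^ (f + i + 1 + Nat.totient K' * s) + (c - 2 ^ (f + i + 1)) := by
        have := hA' s
        omega
      have h4 : c - 2 ^ (f + i + 1) < 2 ^ (f + i + 1 + Nat.totient K' * s) := by
        have h5 : s ≤ f + i + 1 + Nat.totient K' * s := by
          have : 1 * s ≤ Nat.totient K' * s := Nat.mul_le_mul_right _ htot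
          omega
        have h6 : s < 2 ^ (f + i + 1 + Nat.totient K' * s) := lt_of_le_of_lt h5 Nat.lt_two_pow_self
        have h8 : c - 2 ^ (f + i + 1) ≤ c := Nat.sub_le _ _
        exact lt_of_le_of_lt h8 (by omega)
      have h7 := L_right _ _ h4
      rw [h3, len_pos (by positivity)]
      rw [Int.cast_natCast, Nat.abs_cast]
      exact_mod_cast h7
    | zero => exact ⟨0, fun s _ => by simp⟩
    | add x y _ _ hx hy =>
      obtain ⟨B, hB⟩ := hx
      obtain ⟨B', hB'⟩ := hy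
      exact ⟨B + B', fun s hs => (abs_add_le _ _).trans (add_le_add (hB s hs) (hB' s hs))⟩
    | smul z x _ hx =>
      obtain ⟨B, hB⟩ := hx
      refine ⟨|z| * B, fun s hs => ?_⟩
      rw [Pi.smul_apply, smul_eq_mul, abs_mul]
      exact mul_le_mul_of_nonneg_left (hB s hs) (abs_nonneg _)
  obtain ⟨B, hB⟩ := hbd _ hmem
  obtain ⟨B', hB'⟩ := exists_nat_gt B
  obtain ⟨M, hM⟩ := L_left (2 ^ (f + i)) (by positivity) B'
  have h1 := hB (K + M) (by omega)
  have h2 : K * A (K + M) + 2 ^ (f + i) = 2 ^ (f + i + 1 + Nat.totient K' * (K + M)) - 2 ^ (f + i) := by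
    rw [← hA' (K + M), pow_succ]
    omega
  have h3 := hM (f + i + 1 + Nat.totient K' * (K + M)) (by
    have : 1 * (K + M) ≤ Nat.totient K' * (K + M) := Nat.mul_le_mul_right _ htot
    omega)
  have h4 : |((len (K * A (K + M) + 2 ^ (f + i)) : ℤ) : ℚ)| ≤ B := h1
  rw [len_pos (by positivity), h2, Int.cast_natCast, Nat.abs_cast] at h4
  have h5 : ((L (2 ^ (f + i + 1 + Nat.totient K' * (K + M)) - 2 ^ (f + i)) 1 : ℕ) : ℚ) < B' := lt_of_le_of_lt h4 hB'
  have h6 : L (2 ^ (f + i + 1 + Nat.totient K' * (K + M)) - 2 ^ (f + i)) 1 < B' := by exact_mod_cast h5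
  omega

/-- **The length of the continued logarithm expansion is not `k`-regular for any `k ≥ 2`.** -/
theorem not_regular (k : ℕ) (hk : 2 ≤ k) : ¬ Regular k len := by
  obtain ⟨x, k', hodd, rfl⟩ := Nat.exists_eq_two_pow_mul_odd (n := k) (by omega)
  rcases Nat.lt_or_ge k' 3 with h | h
  · have h1 : k' = 1 := by
      rcases hodd with ⟨y, hy⟩
      omega
    subst h1
    rw [mul_one]
    apply not_regular_pow
    rcases Nat.eq_zero_or_pos x with h0 | h0
    · subst h0
      simp at hk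
    · exact h0
  · exact not_regular_other x k' hodd h

end Pool.Agent.Q252.CL
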